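import Mathlib

set_option autoImplicit false

namespace Pool.Agent.P.MP_d046ed_co

open Finset

/-- A large antichain in a power of a chain, by pigeonhole on the coordinate sum. -/
theorem exists_antichain (t d : ℕ) (R : Type) [Fintype R]
    (h : (t * d + 1) * Fintype.card R ≤ t ^ d) :
    ∃ a : R → (Fin d → Fin t), ∀ x y, a x ≤ a y → x = y := by
  classical
  have hmaps : ∀ g ∈ (univ : Finset (Fin d → Fin t)),
      (∑ i, (g i : ℕ)) ∈ range (t * d + 1) := by
    intro g _
    rw [mem_range, Nat.lt_succ_iff]
    calc (∑ i, (g i : ℕ)) ≤ ∑ _i : Fin d, t := sum_le_sum fun i _ => (g i).2.le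
      _ = t * d := by simp [mul_comm]
  have hne : (range (t * d + 1)).Nonempty := by simp
  obtain ⟨s, -, hs⟩ := exists_le_card_fiber_of_mul_le_card_of_maps_to hmaps hne
    (n := Fintype.card R) (by simpa using h)
  obtain ⟨e⟩ : Nonempty (R ↪ {g // g ∈ (univ : Finset (Fin d → Fin t)).filter
        (fun g => (∑ i, (g i : ℕ)) = s)}) := by
    apply Function.Embedding.nonempty_of_card_le
    rw [Fintype.card_coe]; exact hs
  refine ⟨fun x => (e x).1, fun x y hxy => ?_⟩
  apply e.injective
  apply Subtype.ext
  have hx := (mem_filter.1 (e x).2).2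
  have hy := (mem_filter.1 (e y).2).2
  have hle : ∀ i ∈ (univ : Finset (Fin d)), ((e x).1 i : ℕ) ≤ ((e y).1 i : ℕ) :=
    fun i _ => hxy i
  have := (sum_eq_sum_iff_of_le hle).1 (hx.trans hy.symm)
  funext i
  exact Fin.ext (this i (mem_univ i))

/-- The two-valued coordinate attached to a proposition. -/
noncomputable def bit (t : ℕ) (ht : 2 ≤ t) (p : Prop) : Fin t :=
  open Classical in if p then ⟨1, by omega⟩ else ⟨0, by omega⟩

theorem bit_le_bit (t : ℕ) (ht : 2 ≤ t) (p q : Prop) : bit t ht p ≤ bit t ht q ↔ (p → q) := by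
  unfold bit
  by_cases hp : p <;> by_cases hq : q <;> simp [hp, hq, Fin.le_def]

/-- The main construction. `S` is a set of positive integers at most `n` in which the quotient of
two comparable elements is less than `K`. -/
theorem exists_embedding (t : ℕ) (ht : 2 ≤ t) (n K W d : ℕ) (hW : 0 < W) (S : ℕ → Prop)
    (hS : ∀ m, S m → 0 < m ∧ m ≤ n)
    (hK : ∀ m u, S m → S (m * u) → u < K)
    (hd : (t * d + 1) * n ≤ t ^ d) :
    ∃ f : {m : ℕ // S m} →
        ((Fin d ⊕ (Fin K × (Fin (W + K) ⊕ Fin (Nat.log 2 n / W + 1)))) → Fin t),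
      ∀ x y, x.1 ∣ y.1 ↔ f x ≤ f y := by
  classical
  -- the rough part
  let r : {m : ℕ // S m} → (ℕ → ℕ) := fun m p => if K ≤ p then m.1.factorization p else 0
  have hfin : Finite {m : ℕ // S m} := by
    apply Finite.of_injective (fun m : {m : ℕ // S m} =>
      (⟨m.1 - 1, by have := hS m.1 m.2; omega⟩ : Fin n))
    intro x y hxy
    have hx := hS x.1 x.2
    have hy := hS y.1 y.2
    apply Subtype.ext
    simp only [Fin.mk.injEq] at hxy
    omega
  have hcardS : Nat.card {m : ℕ // S m} ≤ n := by
    have := Nat.card_le_card_of_injective (fun m : {m : ℕ // S m} =>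
      (⟨m.1 - 1, by have := hS m.1 m.2; omega⟩ : Fin n)) (by
        intro x y hxy
        have hx := hS x.1 x.2
        have hy := hS y.1 y.2
        apply Subtype.ext
        simp only [Fin.mk.injEq] at hxy
        omega)
    simpa using this
  have : Fintype (Set.range r) := Fintype.ofFinite _
  have hcardR : Fintype.card (Set.range r) ≤ n := by
    rw [← Nat.card_eq_fintype_card]
    refine le_trans ?_ hcardS
    exact Nat.card_le_card_of_surjective (Set.rangeFactorization r)
      Set.rangeFactorization_surjective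
  obtain ⟨a, ha⟩ := exists_antichain t d (Set.range r)
    (le_trans (Nat.mul_le_mul_left _ hcardR) hd)
  refine ⟨fun m => Sum.elim (a ⟨r m, m, rfl⟩) (fun q => Sum.elim
    (fun i : Fin (W + K) => bit t ht
      (∃ z : ℕ, S z ∧ z ∣ m.1 ∧ z.factorization q.1 % (W + K) = i))
    (fun j : Fin (Nat.log 2 n / W + 1) => bit t ht
      ((j : ℕ) ≤ m.1.factorization q.1 / W)) q.2), fun x y => ⟨fun hxy => ?_, fun hxy => ?_⟩⟩
  · have hx := hS x.1 x.2
    have hy := hS y.1 y.2
    have hr : r x = r y := by
      obtain ⟨u, hu⟩ := hxy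
      have huK : u < K := hK x.1 u x.2 (hu ▸ y.2)
      have hu0 : u ≠ 0 := by rintro rfl; omega
      funext p
      simp only [r]
      split_ifs with hp
      · rw [hu, Nat.factorization_mul hx.1.ne' hu0]
        simp [Nat.factorization_eq_zero_of_lt (lt_of_lt_of_le huK hp)]
      · rfl
    rintro (i | ⟨p, i | j⟩)
    · simp only [Sum.elim_inl]
      have : (⟨r x, x, rfl⟩ : Set.range r) = ⟨r y, y, rfl⟩ := Subtype.ext hr
      rw [this]
    · simp only [Sum.elim_inr, Sum.elim_inl]
      rw [bit_le_bit]
      rintro ⟨z, hz, hzx, hz'⟩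
      exact ⟨z, hz, hzx.trans hxy, hz'⟩
    · simp only [Sum.elim_inr]
      rw [bit_le_bit]
      intro hj
      refine hj.trans (Nat.div_le_div_right ?_)
      exact (Nat.factorization_le_iff_dvd hx.1.ne' hy.1.ne').2 hxy p
  · have hx := hS x.1 x.2
    have hy := hS y.1 y.2
    have hr : r x = r y := by
      have := ha ⟨r x, x, rfl⟩ ⟨r y, y, rfl⟩ (fun i => by simpa using hxy (Sum.inl i))
      exact congrArg Subtype.val this
    rw [← Nat.factorization_le_iff_dvd hx.1.ne' hy.1.ne']
    intro p
    by_cases hp : K ≤ p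
    · have := congrFun hr p
      simp only [r, if_pos hp] at this
      exact this.le
    · have hpK : p < K := not_le.1 hp
      by_cases hpp : p.Prime
      swap
      · simp [Nat.factorization_eq_zero_of_not_prime _ hpp]
      have hlog : x.1.factorization p ≤ Nat.log 2 n := by
        apply Nat.le_log_of_pow_le (by norm_num)
        calc 2 ^ x.1.factorization p ≤ p ^ x.1.factorization p :=
              Nat.pow_le_pow_left hpp.two_le _
          _ ≤ x.1 := Nat.ordProj_le p hx.1.ne'
          _ ≤ n := hx.2
      have h1 := hxy (Sum.inr (⟨p, hpK⟩, Sum.inl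
        ⟨x.1.factorization p % (W + K), Nat.mod_lt _ (by omega)⟩))
      have h2 := hxy (Sum.inr (⟨p, hpK⟩, Sum.inr
        ⟨x.1.factorization p / W, Nat.lt_succ_of_le (Nat.div_le_div_right hlog)⟩))
      simp only [Sum.elim_inr, Sum.elim_inl] at h1 h2
      rw [bit_le_bit] at h1 h2
      obtain ⟨z, hz, ⟨u, hu⟩, hz'⟩ := h1 ⟨x.1, x.2, dvd_rfl, rfl⟩
      have h3 := h2 le_rfl
      have huK : u < K := hK z u hz (hu ▸ y.2)
      have hu0 : u ≠ 0 := by rintro rfl; omega
      have hz0 : z ≠ 0 := (hS z hz).1.ne'
      have h4 : y.1.factorization p = z.factorization p + u.factorization p := by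
        rw [hu, Nat.factorization_mul hz0 hu0]; simp
      have h5 : u.factorization p < K := lt_trans (Nat.factorization_lt p hu0) huK
      have h6 : x.1.factorization p < y.1.factorization p + W := by
        have e1 := Nat.div_add_mod (x.1.factorization p) W
        have e2 := Nat.mod_lt (x.1.factorization p) hW
        have e3 := Nat.mul_div_le (y.1.factorization p) W
        have e4 := Nat.mul_le_mul_left W h3
        omega
      by_contra hlt
      have hlt' : y.1.factorization p < x.1.factorization p := not_le.1 hlt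
      have h7 : (W + K) ∣ x.1.factorization p - z.factorization p :=
        (Nat.modEq_iff_dvd' (by omega)).1 hz'
      have h8 := Nat.le_of_dvd (by omega) h7
      omega

end Pool.Agent.P.MP_d046ed_co
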