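import Mathlib
import Pool.Agent.P.MP_d046ed_co.Embed

set_option autoImplicit false

namespace Pool.Agent.P.MP_d046ed_co

open Finset Filter Topology

/-- Admissible dimensions: the value produced by the construction. -/
theorem mem_dims (α : ℝ) (h0 : 0 < α) (t : ℕ) (ht : 2 ≤ t) (n K W d : ℕ) (hW : 0 < W)
    (hK : 1 ≤ α * K) (hd : (t * d + 1) * n ≤ t ^ d) :
    ∃ f : {m : ℕ // 0 < m ∧ α * n < m ∧ m ≤ n} →
        (Fin (d + K * ((W + K) + (Nat.log 2 n / W + 1))) → Fin t),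
      Function.Injective f ∧ ∀ x y, x.1 ∣ y.1 ↔ f x ≤ f y := by
  obtain ⟨f, hf⟩ := exists_embedding t ht n K W d hW (fun m => 0 < m ∧ α * n < m ∧ m ≤ n)
    (fun m hm => ⟨hm.1, hm.2.2⟩)
    (by
      rintro m u ⟨hm0, hm1, -⟩ ⟨-, -, hmu⟩
      have h1 : ((m * u : ℕ) : ℝ) ≤ n := by exact_mod_cast hmu
      have hm0' : (0 : ℝ) < m := by exact_mod_cast hm0
      have h2 : α * ((m : ℝ) * u) < m * (α * K) := by
        push_cast at h1
        calc α * ((m : ℝ) * u) ≤ α * n := by gcongr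
          _ < m := hm1
          _ = m * 1 := by ring
          _ ≤ m * (α * K) := by gcongr
      have h3 : (u : ℝ) < K := by
        by_contra hc
        have hc' : (K : ℝ) ≤ u := not_lt.1 hc
        have : m * (α * K) ≤ α * ((m : ℝ) * u) := by
          calc (m : ℝ) * (α * K) = α * (m * K) := by ring
            _ ≤ α * (m * u) := by gcongr
        linarith
      exact_mod_cast h3) hd
  have e : (Fin d ⊕ (Fin K × (Fin (W + K) ⊕ Fin (Nat.log 2 n / W + 1)))) ≃
      Fin (d + K * ((W + K) + (Nat.log 2 n / W + 1))) :=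
    Fintype.equivFinOfCardEq (by simp)
  have key : ∀ x y, x.1 ∣ y.1 ↔ (fun i => f x (e.symm i)) ≤ (fun i => f y (e.symm i)) := by
    intro x y
    rw [hf]
    constructor
    · intro h i
      exact h _
    · intro h i
      simpa using h (e i)
  refine ⟨fun x i => f x (e.symm i), fun x y hxy => ?_, key⟩
  apply Subtype.ext
  exact Nat.dvd_antisymm ((key x y).2 hxy.le) ((key y x).2 hxy.ge)

/-- Counting lower bound. -/
theorem card_le_of_inj (α : ℝ) (h0 : 0 < α) (t n d : ℕ)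
    (f : {m : ℕ // 0 < m ∧ α * n < m ∧ m ≤ n} → (Fin d → Fin t)) (hf : Function.Injective f) :
    (1 - α) * n ≤ (t : ℝ) ^ d := by
  have h1 := Nat.card_le_card_of_injective f hf
  have h2 : Nat.card {m : ℕ // 0 < m ∧ α * n < m ∧ m ≤ n} = n - ⌊α * n⌋₊ := by
    have : ∀ m : ℕ, (0 < m ∧ α * n < m ∧ m ≤ n) ↔ m ∈ Finset.Ioc ⌊α * n⌋₊ n := by
      intro m
      rw [Finset.mem_Ioc, Nat.floor_lt (by positivity)]
      constructor
      · rintro ⟨-, h, h'⟩; exact ⟨h, h'⟩
      · rintro ⟨h, h'⟩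
        refine ⟨?_, h, h'⟩
        have : (0 : ℝ) < m := lt_of_le_of_lt (by positivity) h
        exact_mod_cast this
    rw [Nat.card_congr (Equiv.subtypeEquivRight this)]
    exact (Nat.card_eq_finsetCard _).trans (Nat.card_Ioc _ _)
  rw [h2] at h1
  simp only [Nat.card_eq_fintype_card, Fintype.card_pi, Fintype.card_fin, prod_const,
    card_univ] at h1
  have h3 : (n : ℝ) ≤ ⌊α * n⌋₊ + (t : ℝ) ^ d := by
    have : n ≤ ⌊α * n⌋₊ + t ^ d := by omega
    exact_mod_cast this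
  have h4 : (⌊α * n⌋₊ : ℝ) ≤ α * n := Nat.floor_le (by positivity)
  linarith

theorem tendsto_log_nat : Tendsto (fun n : ℕ => Real.log n) atTop atTop :=
  Real.tendsto_log_atTop.comp tendsto_natCast_atTop_atTop

/-- For large `n` the antichain condition holds with `d = ⌈(1 / log t + ε) log n⌉`. -/
theorem eventually_antichain (t : ℕ) (ht : 2 ≤ t) (ε : ℝ) (hε : 0 < ε) :
    ∀ᶠ n : ℕ in atTop,
      (t * ⌈(1 / Real.log t + ε) * Real.log n⌉₊ + 1) * n
        ≤ t ^ ⌈(1 / Real.log t + ε) * Real.log n⌉₊ := by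
  have ht1 : (1 : ℝ) < t := by exact_mod_cast ht
  have hL : 0 < Real.log t := Real.log_pos ht1
  set c : ℝ := 1 / Real.log t + ε with hc
  have hc0 : 0 < c := by positivity
  set δ : ℝ := ε * Real.log t with hδ
  have hδ0 : 0 < δ := by positivity
  -- t * (c x + 1) + 1 ≤ exp (δ x) for large x
  have hx : ∀ᶠ x : ℝ in atTop, t * (c * x + 1) + 1 ≤ Real.exp (δ * x) := by
    filter_upwards [eventually_ge_atTop (1 : ℝ),
      eventually_ge_atTop (2 * (t * (c + 1) + 1) / δ ^ 2)] with x hx1 hx2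
    have h1 : 1 + δ * x + (δ * x) ^ 2 / 2 ≤ Real.exp (δ * x) :=
      Real.quadratic_le_exp_of_nonneg (by positivity)
    have h2 : 2 * (t * (c + 1) + 1) ≤ x * δ ^ 2 := by
      rwa [div_le_iff₀ (by positivity)] at hx2
    have ht0 : (0 : ℝ) ≤ t := by positivity
    have h3 : t * (c * x + 1) + 1 ≤ (t * (c + 1) + 1) * x := by nlinarith
    have h4 : (t * (c + 1) + 1) * x ≤ (δ * x) ^ 2 / 2 := by nlinarith
    have h5 : 0 ≤ δ * x := by positivity
    linarith
  filter_upwards [tendsto_log_nat.eventually hx, eventually_ge_atTop 1] with n hn hn1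
  have hn0 : (0 : ℝ) < n := by exact_mod_cast hn1
  have hlog : 0 ≤ Real.log n := Real.log_natCast_nonneg n
  have hceil : (⌈c * Real.log n⌉₊ : ℝ) ≤ c * Real.log n + 1 :=
    (Nat.ceil_lt_add_one (by positivity)).le
  have hceil' : c * Real.log n ≤ (⌈c * Real.log n⌉₊ : ℝ) := Nat.le_ceil _
  have hpow : Real.exp (δ * Real.log n) * n ≤ (t : ℝ) ^ ⌈c * Real.log n⌉₊ := by
    calc Real.exp (δ * Real.log n) * n
        = Real.exp (δ * Real.log n + Real.log n) := by rw [Real.exp_add, Real.exp_log hn0]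
      _ = Real.exp (Real.log t * (c * Real.log n)) := by
          congr 1
          rw [hc, hδ]; field_simp; ring
      _ ≤ Real.exp (Real.log t * ⌈c * Real.log n⌉₊) := by gcongr
      _ = (t : ℝ) ^ ⌈c * Real.log n⌉₊ := by
          rw [mul_comm, Real.exp_nat_mul, Real.exp_log (by positivity)]
  have : ((t : ℝ) * ⌈c * Real.log n⌉₊ + 1) * n ≤ (t : ℝ) ^ ⌈c * Real.log n⌉₊ := by
    refine le_trans ?_ hpow
    gcongr
    refine le_trans ?_ hn
    gcongr
  exact_mod_cast this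

theorem natlog_le (n : ℕ) : (Nat.log 2 n : ℝ) ≤ 2 * Real.log n := by
  rcases Nat.eq_zero_or_pos n with rfl | hn
  · simp
  have h1 : (2 : ℝ) ^ Nat.log 2 n ≤ n := by exact_mod_cast Nat.pow_log_le_self 2 hn.ne'
  have h2 := Real.log_le_log (by positivity) h1
  rw [Real.log_pow] at h2
  have h3 := Real.log_two_gt_d9
  have h4 : (0 : ℝ) ≤ Nat.log 2 n := by positivity
  nlinarith

theorem main (α : ℝ) (h0 : 0 < α) (h1 : α < 1) (t : ℕ) (ht : 2 ≤ t) :
    Tendsto (fun n : ℕ => ((sInf {d : ℕ | 1 ≤ d ∧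
        ∃ f : {m : ℕ // 0 < m ∧ α * n < m ∧ m ≤ n} → (Fin d → Fin t),
          Function.Injective f ∧ ∀ x y, x.1 ∣ y.1 ↔ f x ≤ f y} : ℕ) : ℝ) / Real.log n)
      atTop (𝓝 (1 / Real.log t)) := by
  have ht1 : (1 : ℝ) < t := by exact_mod_cast ht
  have hL : 0 < Real.log t := Real.log_pos ht1
  obtain ⟨K, hK, hK1⟩ : ∃ K : ℕ, 1 ≤ α * K ∧ 1 ≤ K := by
    refine ⟨⌈1 / α⌉₊, ?_, Nat.one_le_iff_ne_zero.2 (Nat.ceil_pos.2 (by positivity)).ne'⟩
    have := Nat.le_ceil (1 / α)
    rw [div_le_iff₀ h0] at this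
    linarith
  rw [Metric.tendsto_nhds]
  intro ε hε
  obtain ⟨W, hW, hW1⟩ : ∃ W : ℕ, 8 * K ≤ ε * W ∧ 0 < W := by
    refine ⟨⌈8 * K / ε⌉₊, ?_, Nat.ceil_pos.2 (by positivity)⟩
    have := Nat.le_ceil (8 * K / ε)
    rw [div_le_iff₀ hε] at this
    linarith
  filter_upwards [eventually_antichain t ht (ε / 4) (by positivity),
    tendsto_log_nat.eventually (eventually_gt_atTop 0),
    tendsto_log_nat.eventually (eventually_ge_atTop (4 * (1 + K * (W + K + 1)) / ε)),
    tendsto_log_nat.eventually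
      (eventually_gt_atTop (- Real.log (1 - α) / (ε * Real.log t))),
    eventually_ge_atTop 1] with n hn hlog hbig hbig2 hn1
  set d := ⌈(1 / Real.log t + ε / 4) * Real.log n⌉₊ with hd
  set D := {d : ℕ | 1 ≤ d ∧
        ∃ f : {m : ℕ // 0 < m ∧ α * n < m ∧ m ≤ n} → (Fin d → Fin t),
          Function.Injective f ∧ ∀ x y, x.1 ∣ y.1 ↔ f x ≤ f y} with hD
  have hmem : d + K * ((W + K) + (Nat.log 2 n / W + 1)) ∈ D := by
    refine ⟨?_, mem_dims α h0 t ht n K W d hW1 hK hn⟩
    have : 1 * 1 ≤ K * ((W + K) + (Nat.log 2 n / W + 1)) := 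
      Nat.mul_le_mul hK1 (Nat.le_add_left_of_le (Nat.le_add_left 1 _))
    omega
  have hup : sInf D ≤ d + K * ((W + K) + (Nat.log 2 n / W + 1)) := Nat.sInf_le hmem
  obtain ⟨-, f, hf, -⟩ := Nat.sInf_mem ⟨_, hmem⟩
  have hlow := card_le_of_inj α h0 t n _ f hf
  have hn0 : (0 : ℝ) < n := by exact_mod_cast hn1
  have hlow' : Real.log (1 - α) + Real.log n ≤ (sInf D : ℕ) * Real.log t := by
    rw [← Real.log_mul (by linarith) hn0.ne', ← Real.log_pow]
    exact Real.log_le_log (mul_pos (by linarith) hn0) hlow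
  rw [Real.dist_eq, abs_lt]
  constructor
  · rw [div_lt_iff₀ (by positivity)] at hbig2
    have : (1 / Real.log t - ε) < (sInf D : ℕ) / Real.log n := by
      rw [lt_div_iff₀ hlog]
      have h2 : (1 / Real.log t - ε) * Real.log n * Real.log t
          < (sInf D : ℕ) * Real.log t := by
        have : (1 / Real.log t - ε) * Real.log n * Real.log t
            = Real.log n - Real.log n * (ε * Real.log t) := by field_simp
        rw [this]; linarith
      exact lt_of_mul_lt_mul_right h2 hL.le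
    linarith
  · have hup' : ((sInf D : ℕ) : ℝ) ≤ d + K * ((W + K) + ((Nat.log 2 n / W : ℕ) + 1)) := by
      exact_mod_cast hup
    have hW0 : (0 : ℝ) < W := by exact_mod_cast hW1
    have hdiv : ((Nat.log 2 n / W : ℕ) : ℝ) ≤ 2 * Real.log n / W :=
      le_trans Nat.cast_div_le (by gcongr; exact natlog_le n)
    have hKdiv : K * ((Nat.log 2 n / W : ℕ) : ℝ) ≤ ε / 4 * Real.log n := by
      calc K * ((Nat.log 2 n / W : ℕ) : ℝ) ≤ K * (2 * Real.log n / W) := by gcongr
        _ = (8 * K) * (Real.log n / (4 * W)) := by field_simp; ring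
        _ ≤ (ε * W) * (Real.log n / (4 * W)) := by gcongr
        _ = ε / 4 * Real.log n := by field_simp
    have hdle : (d : ℝ) < (1 / Real.log t + ε / 4) * Real.log n + 1 :=
      Nat.ceil_lt_add_one (by positivity)
    rw [div_le_iff₀ hε] at hbig
    have : ((sInf D : ℕ) : ℝ) / Real.log n < 1 / Real.log t + ε := by
      rw [div_lt_iff₀ hlog]
      have hεl : 0 < ε * Real.log n := by positivity
      nlinarith
    linarith

end Pool.Agent.P.MP_d046ed_co
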